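import Mathlib

/-!
Finite binary trees in a metric space and the passage from a connected family of small sets to a tree.
-/

set_option autoImplicit false

namespace Pool.Agent.H80

open Set

/-- Finite binary trees with leaves labelled by `ι` and inner nodes placed at points of `X`. -/
inductive PT (ι X : Type) where
  | leaf : ι → PT ι X
  | node : X → PT ι X → PT ι X → PT ι X

namespace PT

variable {ι X : Type}

/-- Position of the root; the leaf `i` sits at `q i`. -/
def pos (q : ι → X) : PT ι X → X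
  | leaf i => q i
  | node x _ _ => x

/-- Multiset of leaf labels. -/
def labels : PT ι X → Multiset ι
  | leaf i => {i}
  | node _ l r => labels l + labels r

theorem pos_node (q : ι → X) (x : X) (l r : PT ι X) : (node x l r).pos q = x := rfl

theorem pos_leaf (q : ι → X) (i : ι) : (leaf i : PT ι X).pos q = q i := rfl

theorem labels_leaf (i : ι) : (leaf i : PT ι X).labels = {i} := rfl

theorem labels_node (x : X) (l r : PT ι X) : (node x l r).labels = l.labels + r.labels := rfl

variable [PseudoMetricSpace X]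

/-- Total length of the tree. -/
def len (q : ι → X) : PT ι X → ℝ
  | leaf _ => 0
  | node x l r => (dist x (l.pos q) + l.len q) + (dist x (r.pos q) + r.len q)

theorem len_leaf (q : ι → X) (i : ι) : (leaf i : PT ι X).len q = 0 := rfl

theorem len_node (q : ι → X) (x : X) (l r : PT ι X) :
    (node x l r).len q = (dist x (l.pos q) + l.len q) + (dist x (r.pos q) + r.len q) := rfl

/-- Cost of joining the point `x` to the tree `t`, together with the tree. -/
def cost (q : ι → X) (p : X × PT ι X) : ℝ := dist p.1 (p.2.pos q) + p.2.len q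

/-- Joining finitely many planted trees at a point. -/
theorem star (q : ι → X) (z : X) (w : ℝ) (s : Multiset (X × PT ι X)) (hs : s ≠ 0)
    (h : ∀ p ∈ s, dist z p.1 ≤ w) :
    ∃ t : PT ι X, t.labels = (s.map (fun p => p.2.labels)).sum ∧
      cost q (z, t) ≤ (s.map (cost q)).sum + (Multiset.card s) * w := by
  induction s using Multiset.induction_on with
  | empty => exact absurd rfl hs
  | cons p s ih =>
    by_cases h0 : s = 0
    · subst h0
      refine ⟨p.2, by simp, ?_⟩
      have h1 := h p (by simp)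
      have h2 := dist_triangle z p.1 (p.2.pos q)
      simp only [cost, Multiset.cons_zero, Multiset.map_singleton, Multiset.sum_singleton,
        Multiset.card_singleton, Nat.cast_one, one_mul]
      linarith
    · obtain ⟨t, ht, hc⟩ := ih h0 (fun p hp => h p (by simp [hp]))
      refine ⟨node z p.2 t, ?_, ?_⟩
      · simp [labels, ht]
      · have h1 := h p (by simp)
        have h2 := dist_triangle z p.1 (p.2.pos q)
        simp only [cost, pos_node, len_node, dist_self, Multiset.map_cons, Multiset.sum_cons,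
          Multiset.card_cons, Nat.cast_add, Nat.cast_one] at hc ⊢
        linarith

/-- The inductive statement: every family of planted trees rooted in the union of the `U i`, `i ∈ I`,
can be joined to a single tree at small extra cost. -/
def Joins (q : ι → X) (U : ℕ → Set X) (w : ℕ → ℝ) (δ : ℝ) (x : X) (I : Finset ℕ) : Prop :=
  ∀ s : Multiset (X × PT ι X), s ≠ 0 → (∀ p ∈ s, ∃ i ∈ I, p.1 ∈ U i) →
    ∃ t : PT ι X, t.labels = (s.map (fun p => p.2.labels)).sum ∧
      cost q (x, t) ≤ (s.map (cost q)).sum + ∑ i ∈ I, w i + ((Multiset.card s : ℝ) - 1) * δ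

theorem joins_singleton (q : ι → X) (U : ℕ → Set X) (w : ℕ → ℝ) (δ : ℝ) (x : X) (j : ℕ)
    (hx : x ∈ U j) (hU : ∀ a ∈ U j, ∀ b ∈ U j, dist a b ≤ w j) (hw : w j ≤ δ) :
    Joins q U w δ x {j} := by
  intro s hs h
  obtain ⟨t, ht, hc⟩ := star q x (w j) s hs (fun p hp => by
    obtain ⟨i, hi, hpi⟩ := h p hp
    rw [Finset.mem_singleton] at hi
    subst hi
    exact hU _ hx _ hpi)
  refine ⟨t, ht, hc.trans ?_⟩
  have hcard : (1 : ℝ) ≤ Multiset.card s := by
    have := Multiset.card_pos.mpr hs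
    exact_mod_cast this
  simp only [Finset.sum_singleton]
  nlinarith

theorem joins_insert (q : ι → X) (U : ℕ → Set X) (w : ℕ → ℝ) (δ : ℝ) (x : X) (I : Finset ℕ) (j i : ℕ)
    (hj : j ∉ I) (hi : i ∈ I) (hij : (U i ∩ U j).Nonempty)
    (hU : ∀ a ∈ U j, ∀ b ∈ U j, dist a b ≤ w j) (hw : w j ≤ δ) (hI : Joins q U w δ x I) :
    Joins q U w δ x (insert j I) := by
  classical
  intro s hs h
  obtain ⟨z, hzi, hzj⟩ := hij
  have hw0 : 0 ≤ w j := by
    have := hU z hzj z hzj
    simpa using this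
  rw [Finset.sum_insert hj]
  -- the part of `s` planted in the old sets, and the rest, planted in `U j`
  let P : X × PT ι X → Prop := fun p => ∃ i ∈ I, p.1 ∈ U i
  have hsplit : s.filter P + s.filter (fun p => ¬ P p) = s := Multiset.filter_add_not P s
  have hold : ∀ p ∈ s.filter P, ∃ i ∈ I, p.1 ∈ U i := fun p hp => (Multiset.mem_filter.mp hp).2
  have hnew : ∀ p ∈ s.filter (fun p => ¬ P p), p.1 ∈ U j := by
    intro p hp
    obtain ⟨hps, hpn⟩ := Multiset.mem_filter.mp hp
    obtain ⟨k, hk, hpk⟩ := h p hps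
    rcases Finset.mem_insert.mp hk with rfl | hk
    · exact hpk
    · exact absurd ⟨k, hk, hpk⟩ hpn
  by_cases h0 : s.filter (fun p => ¬ P p) = 0
  · rw [h0, add_zero] at hsplit
    obtain ⟨t, ht, hc⟩ := hI s hs (by rw [← hsplit]; exact hold)
    refine ⟨t, ht, hc.trans ?_⟩
    linarith
  · obtain ⟨t', ht', hc'⟩ := star q z (w j) (s.filter (fun p => ¬ P p)) h0
      (fun p hp => hU _ hzj _ (hnew p hp))
    obtain ⟨t, ht, hc⟩ := hI ((z, t') ::ₘ s.filter P) (by simp) (by
      intro p hp
      rcases Multiset.mem_cons.mp hp with rfl | hp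
      · exact ⟨i, hi, hzi⟩
      · exact hold p hp)
    refine ⟨t, ?_, hc.trans ?_⟩
    · rw [ht]
      conv_rhs => rw [← hsplit]
      rw [Multiset.map_add, Multiset.sum_add, Multiset.map_cons, Multiset.sum_cons, ht', add_comm]
    · have hcardeq : (Multiset.card s : ℝ) =
          Multiset.card (s.filter P) + Multiset.card (s.filter (fun p => ¬ P p)) := by
        conv_lhs => rw [← hsplit]
        rw [Multiset.card_add]
        push_cast
        ring
      have hsumeq : (s.map (cost q)).sum = ((s.filter P).map (cost q)).sum +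
          ((s.filter (fun p => ¬ P p)).map (cost q)).sum := by
        conv_lhs => rw [← hsplit]
        rw [Multiset.map_add, Multiset.sum_add]
      have hcard : (1 : ℝ) ≤ Multiset.card (s.filter (fun p => ¬ P p)) := by
        have := Multiset.card_pos.mpr h0
        exact_mod_cast this
      rw [Multiset.map_cons, Multiset.sum_cons, Multiset.card_cons]
      rw [hsumeq, hcardeq]
      push_cast
      nlinarith

/-- Growing lemma. -/
theorem joins_of_connected [Nonempty X] (q : ι → X) (U : ℕ → Set X) (w : ℕ → ℝ) (δ : ℝ) (x : X)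
    (K : Set X) (hK : IsPreconnected K) (J J1 : Finset ℕ) (j0 : ℕ) (hJ1 : J1 ⊆ J) (hj0 : j0 ∈ J1)
    (hopen : ∀ j, IsOpen (U j)) (hcov : K ⊆ ⋃ j ∈ J, U j) (hmeet : ∀ j ∈ J, (K ∩ U j).Nonempty)
    (hU : ∀ j ∈ J, ∀ a ∈ U j, ∀ b ∈ U j, dist a b ≤ w j) (hw : ∀ j ∈ J, w j ≤ δ)
    (hx : x ∈ U j0)
    (hsep : ∀ j ∈ J1, j ≠ j0 → ∀ i ∈ J, i ∉ J1 → ¬ (U i ∩ U j).Nonempty) :
    Joins q U w δ x J1 := by
  classical
  let S : Finset (Finset ℕ) := J1.powerset.filter (fun I => j0 ∈ I ∧ Joins q U w δ x I)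
  have hS : S.Nonempty := by
    refine ⟨{j0}, ?_⟩
    simp only [S, Finset.mem_filter, Finset.mem_powerset, Finset.singleton_subset_iff,
      Finset.mem_singleton, true_and]
    exact ⟨hj0, joins_singleton q U w δ x j0 hx (hU j0 (hJ1 hj0)) (hw j0 (hJ1 hj0))⟩
  obtain ⟨I, hIS, hImax⟩ := Finset.exists_max_image S Finset.card hS
  simp only [S, Finset.mem_filter, Finset.mem_powerset] at hIS
  obtain ⟨hIJ, hj0I, hIjoin⟩ := hIS
  by_cases hIeq : I = J1
  · rw [← hIeq]; exact hIjoin
  exfalso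
  have hne : (J1 \ I).Nonempty := by
    rw [Finset.sdiff_nonempty]
    intro h
    exact hIeq (Finset.Subset.antisymm hIJ h)
  obtain ⟨k, hk⟩ := hne
  rw [Finset.mem_sdiff] at hk
  let V : Set X := ⋃ i ∈ I ∪ (J \ J1), U i
  let W : Set X := ⋃ i ∈ J1 \ I, U i
  have hVo : IsOpen V := isOpen_biUnion (fun i _ => hopen i)
  have hWo : IsOpen W := isOpen_biUnion (fun i _ => hopen i)
  have hVW : K ⊆ V ∪ W := by
    intro y hy
    obtain ⟨i, hi, hyi⟩ := Set.mem_iUnion₂.mp (hcov hy)
    by_cases h1 : i ∈ J1 \ I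
    · right; exact Set.mem_iUnion₂.mpr ⟨i, h1, hyi⟩
    · left
      refine Set.mem_iUnion₂.mpr ⟨i, ?_, hyi⟩
      rw [Finset.mem_sdiff] at h1
      rw [Finset.mem_union, Finset.mem_sdiff]
      by_cases h2 : i ∈ I
      · exact Or.inl h2
      · right
        refine ⟨hi, fun h3 => h1 ⟨h3, h2⟩⟩
  have hKV : (K ∩ V).Nonempty := by
    obtain ⟨y, hyK, hy⟩ := hmeet j0 (hJ1 hj0)
    exact ⟨y, hyK, Set.mem_iUnion₂.mpr ⟨j0, by simp [hj0I], hy⟩⟩
  have hKW : (K ∩ W).Nonempty := by
    obtain ⟨y, hyK, hy⟩ := hmeet k (hJ1 hk.1)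
    exact ⟨y, hyK, Set.mem_iUnion₂.mpr ⟨k, by simp [hk], hy⟩⟩
  obtain ⟨y, hyK, hyV, hyW⟩ := hK V W hVo hWo hVW hKV hKW
  obtain ⟨i, hi, hyi⟩ := Set.mem_iUnion₂.mp hyV
  obtain ⟨j, hj, hyj⟩ := Set.mem_iUnion₂.mp hyW
  rw [Finset.mem_sdiff] at hj
  have hjj0 : j ≠ j0 := fun h => hj.2 (h ▸ hj0I)
  rw [Finset.mem_union, Finset.mem_sdiff] at hi
  rcases hi with hi | hi
  · have hnew : Joins q U w δ x (insert j I) :=
      joins_insert q U w δ x I j i hj.2 hi ⟨y, hyi, hyj⟩ (hU j (hJ1 hj.1)) (hw j (hJ1 hj.1)) hIjoin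
    have hmem : insert j I ∈ S := by
      simp only [S, Finset.mem_filter, Finset.mem_powerset]
      refine ⟨Finset.insert_subset hj.1 hIJ, Finset.mem_insert_of_mem hj0I, hnew⟩
    have := hImax _ hmem
    rw [Finset.card_insert_of_notMem hj.2] at this
    omega
  · exact hsep j hj.1 hjj0 i hi.1 hi.2 ⟨y, hyi, hyj⟩

end PT

end Pool.Agent.H80
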