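import Mathlib
import Pool.Agent.H80.Tree

/-!
Lower bounds for the length of a planted tree by dual certificates, and the cap inequality.
-/

set_option autoImplicit false

namespace Pool.Agent.H80

open Set

/-- The plane. -/
abbrev E2 : Type := EuclideanSpace ℝ (Fin 2)

open PT

section Cert

variable {ι : Type}

/-- Sum of the certificate vectors over the leaves. -/
noncomputable def zs (z : ι → E2) : PT ι E2 → E2
  | leaf i => z i
  | node _ l r => zs z l + zs z r

/-- All clade sums have norm at most one. -/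
def ok (z : ι → E2) : PT ι E2 → Prop
  | leaf i => ‖z i‖ ≤ 1
  | node _ l r => ‖zs z l + zs z r‖ ≤ 1 ∧ ok z l ∧ ok z r

/-- The value of the certificate. -/
noncomputable def val (z q : ι → E2) : PT ι E2 → ℝ
  | leaf i => inner ℝ (z i) (q i)
  | node _ l r => val z q l + val z q r

theorem norm_zs_le (z : ι → E2) (t : PT ι E2) (h : ok z t) : ‖zs z t‖ ≤ 1 := by
  cases t with
  | leaf i => exact h
  | node x l r => exact h.1

theorem inner_le_dist (z x y : E2) (hz : ‖z‖ ≤ 1) : inner ℝ z (x - y) ≤ dist x y := by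
  rw [dist_eq_norm]
  calc inner ℝ z (x - y) ≤ ‖z‖ * ‖x - y‖ := real_inner_le_norm _ _
    _ ≤ 1 * ‖x - y‖ := mul_le_mul_of_nonneg_right hz (norm_nonneg _)
    _ = ‖x - y‖ := one_mul _

theorem cost_ge (z q : ι → E2) (t : PT ι E2) (h : ok z t) (x : E2) :
    val z q t - inner ℝ (zs z t) x ≤ cost q (x, t) := by
  induction t generalizing x with
  | leaf i =>
    have h1 := inner_le_dist (z i) (q i) x h
    rw [inner_sub_right, dist_comm] at h1
    simp only [val, zs, cost, pos_leaf, len_leaf]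
    linarith
  | node s l r ihl ihr =>
    have h1 := ihl h.2.1 s
    have h2 := ihr h.2.2 s
    have h3 := inner_le_dist (zs z (node s l r)) s x (norm_zs_le z _ h)
    rw [inner_sub_right, dist_comm] at h3
    simp only [zs, inner_add_left] at h3
    simp only [cost, pos_node, len_node, val, zs, inner_add_left] at h1 h2 ⊢
    linarith

theorem val_eq (z q : ι → E2) (t : PT ι E2) :
    val z q t = (t.labels.map (fun i => (inner ℝ (z i) (q i) : ℝ))).sum := by
  induction t with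
  | leaf i => simp [val, labels_leaf]
  | node s l r ihl ihr => simp [val, labels_node, ihl, ihr]

theorem zs_eq (z : ι → E2) (t : PT ι E2) : zs z t = (t.labels.map z).sum := by
  induction t with
  | leaf i => simp [zs, labels_leaf]
  | node s l r ihl ihr => simp [zs, labels_node, ihl, ihr]

end Cert

/-- Coordinates adapted to the hexagonal lattice. -/
noncomputable def emb (a b : ℝ) : E2 := !₂[a, Real.sqrt 3 * b]

theorem emb_inner (a b c d : ℝ) : (inner ℝ (emb a b) (emb c d) : ℝ) = a * c + 3 * (b * d) := by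
  have h3 : Real.sqrt 3 * Real.sqrt 3 = 3 := Real.mul_self_sqrt (by norm_num)
  have h4 : (inner ℝ (emb a b) (emb c d) : ℝ) = c * a + Real.sqrt 3 * d * (Real.sqrt 3 * b) := by
    simp [emb, EuclideanSpace.inner_eq_star_dotProduct, dotProduct, Fin.sum_univ_two]
  rw [h4]
  have h5 : Real.sqrt 3 * d * (Real.sqrt 3 * b) = (Real.sqrt 3 * Real.sqrt 3) * (b * d) := by ring
  rw [h5, h3]
  ring

theorem emb_norm_sq (a b : ℝ) : ‖emb a b‖ ^ 2 = a ^ 2 + 3 * b ^ 2 := by
  rw [← real_inner_self_eq_norm_sq, emb_inner]; ring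

theorem emb_norm_le (a b n : ℝ) (hn : 0 ≤ n) (h : a ^ 2 + 3 * b ^ 2 ≤ n ^ 2) : ‖emb a b‖ ≤ n := by
  rw [← emb_norm_sq] at h
  exact (sq_le_sq₀ (norm_nonneg _) hn).mp h

theorem emb_add (a b c d : ℝ) : emb a b + emb c d = emb (a + c) (b + d) := by
  ext i
  fin_cases i
  · simp [emb]
  · simp [emb, mul_add]

theorem emb_sub (a b c d : ℝ) : emb a b - emb c d = emb (a - c) (b - d) := by
  ext i
  fin_cases i
  · simp [emb]
  · simp [emb, mul_sub]

theorem emb_surj (x : E2) : ∃ a b : ℝ, x = emb a b ∧ a = x 0 := by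
  have h3 : Real.sqrt 3 ≠ 0 := by positivity
  refine ⟨x 0, x 1 / Real.sqrt 3, ?_, rfl⟩
  ext i
  fin_cases i
  · simp [emb]
  · simp [emb, mul_div_cancel₀ _ h3]

/-! ### The four certificates, scaled by 14 -/

/-- First coordinates. -/
def cx : Fin 4 → Fin 5 → ℤ :=
  ![![-7, 0, -14, 14, -7], ![-7, 14, -14, 0, -7], ![-7, 0, 0, -7, 0], ![0, -7, 0, 0, -7]]

/-- Second coordinates. -/
def cy : Fin 4 → Fin 5 → ℤ :=
  ![![7, 0, 0, 0, -7], ![7, 0, 0, 0, -7], ![7, 0, 8, -7, -8], ![8, 7, -8, 0, -7]]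

/-- Sum over a bit mask. -/
def msum (c : Fin 5 → ℤ) (m : ℕ) : ℤ :=
  (if m.testBit 0 then c 0 else 0) + (if m.testBit 1 then c 1 else 0) +
    (if m.testBit 2 then c 2 else 0) + (if m.testBit 3 then c 3 else 0) +
    (if m.testBit 4 then c 4 else 0)

/-- Which certificates are admissible for a clade. -/
def okTab : List ℕ :=
  [15, 15, 15, 7, 15, 8, 15, 10, 15, 15, 15, 7, 15, 9, 15, 11, 15, 15, 15, 7, 4, 12, 6, 14, 11,
    11, 11, 3, 5, 13, 7, 15]

/-- The possible sets of admissible certificates for trees with a given leaf set. -/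
def gTab : List (List ℕ) :=
  [[], [15], [15], [7], [15], [8], [15], [2, 8, 10], [15], [15], [15], [7], [15], [8, 9], [15],
    [2, 3, 8, 9, 10, 11], [15], [15], [15], [7], [4], [4, 8, 12], [4, 6], [2, 4, 6, 8, 10, 12, 14],
    [11], [11], [11], [3], [1, 4, 5], [1, 4, 5, 8, 9, 12, 13], [1, 3, 4, 5, 6, 7],
    [1, 2, 3, 4, 5, 6, 7, 8, 9, 10, 11, 12, 13, 14, 15]]

theorem gTab_closed : ∀ m1 < 32, ∀ m2 < 32, m1 &&& m2 = 0 → ∀ a ∈ gTab.getD m1 [],
    ∀ b ∈ gTab.getD m2 [], (a &&& b &&& okTab.getD (m1 ||| m2) 0) ∈ gTab.getD (m1 ||| m2) [] := by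
  decide

theorem gTab_last : ∀ a ∈ gTab.getD 31 [], ∃ k : Fin 4, a.testBit k = true := by
  decide

theorem okTab_spec : ∀ m < 32, ∀ k : Fin 4, (okTab.getD m 0).testBit k = true →
    (msum (cx k) m) ^ 2 + 3 * (msum (cy k) m) ^ 2 ≤ 196 := by
  decide

theorem msum_lor_x : ∀ m1 < 32, ∀ m2 < 32, m1 &&& m2 = 0 → ∀ k : Fin 4,
    msum (cx k) (m1 ||| m2) = msum (cx k) m1 + msum (cx k) m2 := by
  decide

theorem msum_lor_y : ∀ m1 < 32, ∀ m2 < 32, m1 &&& m2 = 0 → ∀ k : Fin 4,
    msum (cy k) (m1 ||| m2) = msum (cy k) m1 + msum (cy k) m2 := by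
  decide

/-- Bit mask of the leaf set. -/
def msk : PT (Fin 5) E2 → ℕ
  | leaf i => 2 ^ i.val
  | node _ l r => msk l ||| msk r

/-- Bit mask of the certificates admissible for all clades. -/
def gd : PT (Fin 5) E2 → ℕ
  | leaf _ => 15
  | node _ l r => gd l &&& gd r &&& okTab.getD (msk l ||| msk r) 0

theorem testBit_msk (t : PT (Fin 5) E2) (n : ℕ) :
    (msk t).testBit n = true ↔ ∃ i ∈ t.labels, i.val = n := by
  induction t with
  | leaf i => simp [msk, labels_leaf, Nat.testBit_two_pow]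
  | node s l r ihl ihr =>
    simp only [msk, Nat.testBit_or, Bool.or_eq_true, ihl, ihr, labels_node, Multiset.mem_add]
    constructor
    · rintro (⟨i, hi, rfl⟩ | ⟨i, hi, rfl⟩)
      · exact ⟨i, Or.inl hi, rfl⟩
      · exact ⟨i, Or.inr hi, rfl⟩
    · rintro ⟨i, hi | hi, rfl⟩
      · exact Or.inl ⟨i, hi, rfl⟩
      · exact Or.inr ⟨i, hi, rfl⟩

theorem msk_lt (t : PT (Fin 5) E2) : msk t < 32 := by
  induction t with
  | leaf i => fin_cases i <;> simp [msk]
  | node s l r ihl ihr =>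
    have := Nat.or_lt_two_pow (n := 5) ihl ihr
    simpa [msk] using this

theorem msk_disjoint (l r : PT (Fin 5) E2) (h : (l.labels + r.labels).Nodup) :
    msk l &&& msk r = 0 := by
  apply Nat.eq_of_testBit_eq
  intro n
  rw [Nat.testBit_and, Nat.zero_testBit]
  by_contra hcon
  rw [Bool.not_eq_false, Bool.and_eq_true, testBit_msk, testBit_msk] at hcon
  obtain ⟨⟨i, hi, hin⟩, ⟨j, hj, hjn⟩⟩ := hcon
  have hij : i = j := Fin.ext (hin.trans hjn.symm)
  subst hij
  exact (Multiset.disjoint_left.mp (Multiset.nodup_add.mp h).2.2) hi hj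

theorem gTab_leaf : ∀ i : Fin 5, 15 ∈ gTab.getD (2 ^ i.val) [] := by decide

theorem gd_mem (t : PT (Fin 5) E2) (h : t.labels.Nodup) : gd t ∈ gTab.getD (msk t) [] := by
  induction t with
  | leaf i => exact gTab_leaf i
  | node s l r ihl ihr =>
    rw [labels_node] at h
    have hn := Multiset.nodup_add.mp h
    exact gTab_closed _ (msk_lt l) _ (msk_lt r) (msk_disjoint l r h) _ (ihl hn.1) _ (ihr hn.2.1)

theorem msum_leaf : ∀ (k : Fin 4) (i : Fin 5), msum (cx k) (2 ^ i.val) = cx k i ∧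
    msum (cy k) (2 ^ i.val) = cy k i ∧ (cx k i) ^ 2 + 3 * (cy k i) ^ 2 ≤ 196 := by
  decide

/-- The certificate vectors, for the left (`σ = 1`) and the right (`σ = -1`) cap. -/
noncomputable def cz (σ : ℝ) (k : Fin 4) (i : Fin 5) : E2 :=
  emb (σ * (cx k i / 14)) (cy k i / 14)

theorem emb_int_norm_le (σ : ℝ) (hσ : σ ^ 2 = 1) (a b : ℤ) (h : a ^ 2 + 3 * b ^ 2 ≤ 196) :
    ‖emb (σ * ((a : ℝ) / 14)) ((b : ℝ) / 14)‖ ≤ 1 := by
  refine emb_norm_le _ _ 1 zero_le_one ?_
  have h1 : ((a : ℝ)) ^ 2 + 3 * (b : ℝ) ^ 2 ≤ 196 := by exact_mod_cast h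
  have h2 : (σ * ((a : ℝ) / 14)) ^ 2 = σ ^ 2 * ((a : ℝ) / 14) ^ 2 := by ring
  rw [h2, hσ]
  nlinarith

theorem zs_cz (σ : ℝ) (k : Fin 4) (t : PT (Fin 5) E2) (h : t.labels.Nodup) :
    zs (cz σ k) t = emb (σ * ((msum (cx k) (msk t) : ℤ) / 14)) ((msum (cy k) (msk t) : ℤ) / 14) := by
  induction t with
  | leaf i =>
    simp only [zs, cz, msk]
    rw [(msum_leaf k i).1, (msum_leaf k i).2.1]
  | node s l r ihl ihr =>
    rw [labels_node] at h
    have hn := Multiset.nodup_add.mp h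
    simp only [zs, msk]
    rw [ihl hn.1, ihr hn.2.1, emb_add,
      msum_lor_x _ (msk_lt l) _ (msk_lt r) (msk_disjoint l r h) k,
      msum_lor_y _ (msk_lt l) _ (msk_lt r) (msk_disjoint l r h) k]
    push_cast
    congr 1 <;> ring

theorem ok_cz (σ : ℝ) (hσ : σ ^ 2 = 1) (k : Fin 4) (t : PT (Fin 5) E2) (h : t.labels.Nodup)
    (hg : (gd t).testBit k = true) : ok (cz σ k) t := by
  induction t with
  | leaf i => exact emb_int_norm_le σ hσ _ _ (msum_leaf k i).2.2
  | node s l r ihl ihr =>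
    have h0 := h
    rw [labels_node] at h
    have hn := Multiset.nodup_add.mp h
    simp only [gd, Nat.testBit_and, Bool.and_eq_true] at hg
    refine ⟨?_, ihl hn.1 hg.1.1, ihr hn.2.1 hg.1.2⟩
    have h1 := zs_cz σ k (node s l r) h0
    have h2 : msk l ||| msk r < 32 := msk_lt (node s l r)
    rw [zs] at h1
    rw [h1]
    exact emb_int_norm_le σ hσ _ _ (okTab_spec _ h2 k hg.2)

theorem msk_univ (t : PT (Fin 5) E2) (h : t.labels = (Finset.univ : Finset (Fin 5)).val) :
    msk t = 31 := by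
  apply Nat.eq_of_testBit_eq
  intro n
  rw [Bool.eq_iff_iff, testBit_msk, h]
  constructor
  · rintro ⟨i, _, rfl⟩
    fin_cases i <;> decide
  · intro hn
    have hlt : n < 5 := by
      by_contra hge
      push Not at hge
      have : (31 : ℕ).testBit n = false := Nat.testBit_lt_two_pow (by
        calc 31 < 2 ^ 5 := by norm_num
          _ ≤ 2 ^ n := Nat.pow_le_pow_right (by norm_num) hge)
      rw [this] at hn
      exact absurd hn (by decide)
    exact ⟨⟨n, hlt⟩, Finset.mem_val.mpr (Finset.mem_univ _), rfl⟩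

theorem msum_full : ∀ k : Fin 4, msum (cx k) 31 = -14 ∧ msum (cy k) 31 = 0 := by decide

/-- Terminals of the left cap: first coordinates. -/
noncomputable def ax : Fin 5 → ℝ := ![0, 1 / 2, 0, 1 / 2, 0]
/-- Terminals of the left cap: second coordinates (divided by the square root of three). -/
noncomputable def ay : Fin 5 → ℝ := ![1, 1 / 2, 0, -1 / 2, -1]

/-- Ball centres of the left cap: first coordinates. -/
noncomputable def yx (r : ℝ) : Fin 5 → ℝ := ![-r / 2, 1 / 2 + r, -r, 1 / 2 + r, -r / 2]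
/-- Ball centres of the left cap: second coordinates (divided by the square root of three). -/
noncomputable def yy (r : ℝ) : Fin 5 → ℝ := ![1 + r / 2, 1 / 2, 0, -1 / 2, -1 - r / 2]

/-- Upper bounds for the norms of the certificate vectors. -/
noncomputable def nb : Fin 4 → Fin 5 → ℝ :=
  ![![1, 0, 1, 1, 1], ![1, 1, 1, 0, 1], ![1, 0, 1, 1, 1], ![1, 1, 1, 0, 1]]

theorem norm_cz_le (σ : ℝ) (hσ : σ ^ 2 = 1) (k : Fin 4) (i : Fin 5) : ‖cz σ k i‖ ≤ nb k i := by
  by_cases h : nb k i = 1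
  · rw [h]; exact emb_int_norm_le σ hσ _ _ (msum_leaf k i).2.2
  · have h0 : cx k i = 0 ∧ cy k i = 0 ∧ nb k i = 0 := by
      revert h
      fin_cases k <;> fin_cases i <;> simp [nb, cx, cy]
    rw [h0.2.2]
    refine emb_norm_le _ _ 0 le_rfl ?_
    rw [h0.1, h0.2.1]
    simp

/-- The cap inequality. -/
theorem cap (σ c r : ℝ) (hσ : σ ^ 2 = 1) (hr0 : 0 < r) (hr1 : r ≤ 1 / 100) (q : Fin 5 → E2)
    (hq : ∀ i, dist (q i) (emb (c + σ * yx r i) (yy r i)) ≤ r) (t : PT (Fin 5) E2)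
    (ht : t.labels = (Finset.univ : Finset (Fin 5)).val) (x : E2) :
    7 / 2 + σ * (x 0 - c) ≤ cost q (x, t) := by
  have hnd : t.labels.Nodup := by rw [ht]; exact Finset.univ.nodup
  have hm := gd_mem t hnd
  rw [msk_univ t ht] at hm
  obtain ⟨k, hk⟩ := gTab_last _ hm
  have h1 := cost_ge (cz σ k) q t (ok_cz σ hσ k t hnd hk) x
  have h2 := zs_cz σ k t hnd
  rw [msk_univ t ht, (msum_full k).1, (msum_full k).2] at h2
  obtain ⟨a, b, hab, ha⟩ := emb_surj x
  have h3 : (inner ℝ (zs (cz σ k) t) x : ℝ) = -σ * x 0 := by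
    rw [h2, ← ha, hab, emb_inner]
    push_cast
    ring
  rw [h3, val_eq, ht] at h1
  have h4 : (Multiset.map (fun i => (inner ℝ (cz σ k i) (q i) : ℝ))
      (Finset.univ : Finset (Fin 5)).val).sum = ∑ i : Fin 5, (inner ℝ (cz σ k i) (q i) : ℝ) := rfl
  rw [h4] at h1
  have h5 : ∀ i : Fin 5, (inner ℝ (cz σ k i) (emb (c + σ * yx r i) (yy r i)) : ℝ) - nb k i * r ≤
      inner ℝ (cz σ k i) (q i) := by
    intro i
    have h6 : (inner ℝ (cz σ k i) (emb (c + σ * yx r i) (yy r i) - q i) : ℝ) ≤ nb k i * r := by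
      calc (inner ℝ (cz σ k i) (emb (c + σ * yx r i) (yy r i) - q i) : ℝ)
          ≤ ‖cz σ k i‖ * ‖emb (c + σ * yx r i) (yy r i) - q i‖ := real_inner_le_norm _ _
        _ ≤ nb k i * r := by
            have h7 : ‖emb (c + σ * yx r i) (yy r i) - q i‖ ≤ r := by
              rw [← dist_eq_norm, dist_comm]; exact hq i
            exact mul_le_mul (norm_cz_le σ hσ k i) h7 (norm_nonneg _)
              ((norm_nonneg _).trans (norm_cz_le σ hσ k i))
    rw [inner_sub_right] at h6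
    linarith
  have h8 : ∑ i : Fin 5, ((inner ℝ (cz σ k i) (emb (c + σ * yx r i) (yy r i)) : ℝ) - nb k i * r) ≤
      ∑ i : Fin 5, (inner ℝ (cz σ k i) (q i) : ℝ) := Finset.sum_le_sum (fun i _ => h5 i)
  have hσr : σ * σ = 1 := by rw [← sq]; exact hσ
  have hσ2 : σ * (σ * r) = r := by rw [← mul_assoc, hσr, one_mul]
  have h9 : 7 / 2 - σ * c ≤
      ∑ i : Fin 5, ((inner ℝ (cz σ k i) (emb (c + σ * yx r i) (yy r i)) : ℝ) - nb k i * r) := by
    simp only [Fin.sum_univ_five, cz, emb_inner]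
    fin_cases k <;> simp [cx, cy, yx, yy, nb] <;> nlinarith [hσr, hσ2]
  linarith

end Pool.Agent.H80
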