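import Mathlib
import Pool.Agent.H80.Tree

/-!
Covers of compact sets realising the one-dimensional Hausdorff measure, and the two-sided tree theorem.
-/

set_option autoImplicit false

namespace Pool.Agent.H80

open Set MeasureTheory

variable {X : Type} [MetricSpace X] [MeasurableSpace X] [BorelSpace X]

/-- A compact set of finite `H^1` measure has a finite open cover by small sets with total diameter
close to the measure. -/
theorem exists_cover (K : Set X) (hK : IsCompact K) (hfin : Measure.hausdorffMeasure 1 K ≠ ⊤)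
    (ε δ : ℝ) (hε : 0 < ε) (hδ : 0 < δ) :
    ∃ (J : Finset ℕ) (U : ℕ → Set X) (w : ℕ → ℝ), (∀ j, IsOpen (U j)) ∧ (K ⊆ ⋃ j ∈ J, U j) ∧
      (∀ j ∈ J, (K ∩ U j).Nonempty) ∧ (∀ j ∈ J, ∀ a ∈ U j, ∀ b ∈ U j, dist a b ≤ w j) ∧
      (∀ j ∈ J, w j ≤ δ) ∧ ∑ j ∈ J, w j ≤ (Measure.hausdorffMeasure 1 K).toReal + ε := by
  classical
  set H : ENNReal := Measure.hausdorffMeasure 1 K with hH
  have happ := Measure.hausdorffMeasure_apply (X := X) 1 K
  rw [← hH] at happ
  -- a good countable cover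
  have hr : (0 : ENNReal) < ENNReal.ofReal (δ / 2) := by
    rw [ENNReal.ofReal_pos]; linarith
  have hle : (⨅ (t : ℕ → Set X) (_ : K ⊆ ⋃ n, t n)
      (_ : ∀ n, Metric.ediam (t n) ≤ ENNReal.ofReal (δ / 2)),
      ∑' n, ⨆ (_ : (t n).Nonempty), Metric.ediam (t n) ^ (1 : ℝ)) ≤ H := by
    rw [happ]
    exact le_iSup₂ (f := fun (r : ENNReal) (_ : 0 < r) => ⨅ (t : ℕ → Set X) (_ : K ⊆ ⋃ n, t n)
      (_ : ∀ n, Metric.ediam (t n) ≤ r),
      ∑' n, ⨆ (_ : (t n).Nonempty), Metric.ediam (t n) ^ (1 : ℝ)) (ENNReal.ofReal (δ / 2)) hr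
  have hlt : (⨅ (t : ℕ → Set X) (_ : K ⊆ ⋃ n, t n)
      (_ : ∀ n, Metric.ediam (t n) ≤ ENNReal.ofReal (δ / 2)),
      ∑' n, ⨆ (_ : (t n).Nonempty), Metric.ediam (t n) ^ (1 : ℝ)) < H + ENNReal.ofReal (ε / 2) := by
    refine hle.trans_lt (ENNReal.lt_add_right hfin ?_)
    rw [Ne, ENNReal.ofReal_eq_zero]; linarith
  simp only [iInf_lt_iff] at hlt
  obtain ⟨t, htcov, htd, hts⟩ := hlt
  -- thickening radii
  let η : ℕ → ℝ := fun n => min (δ / 4) (ε / 8) * (1 / 2) ^ n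
  have hc : 0 < min (δ / 4) (ε / 8) := lt_min (by linarith) (by linarith)
  have hη : ∀ n, 0 < η n := fun n => mul_pos hc (by positivity)
  have hηδ : ∀ n, η n ≤ δ / 4 := fun n => by
    have h1 : (1 / 2 : ℝ) ^ n ≤ 1 := pow_le_one₀ (by norm_num) (by norm_num)
    have h2 : min (δ / 4) (ε / 8) ≤ δ / 4 := min_le_left _ _
    calc η n ≤ min (δ / 4) (ε / 8) * 1 := mul_le_mul_of_nonneg_left h1 hc.le
      _ ≤ δ / 4 := by linarith
  have hηsum : ∀ J : Finset ℕ, ∑ j ∈ J, η j ≤ ε / 4 := by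
    intro J
    have hs : Summable (fun n : ℕ => (1 / 2 : ℝ) ^ n) := summable_geometric_two
    have h1 : ∑ j ∈ J, (1 / 2 : ℝ) ^ j ≤ 2 := by
      calc ∑ j ∈ J, (1 / 2 : ℝ) ^ j ≤ ∑' n : ℕ, (1 / 2 : ℝ) ^ n :=
            hs.sum_le_tsum J (fun i _ => by positivity)
        _ = 2 := tsum_geometric_two
    have h2 : min (δ / 4) (ε / 8) ≤ ε / 8 := min_le_right _ _
    calc ∑ j ∈ J, η j = min (δ / 4) (ε / 8) * ∑ j ∈ J, (1 / 2 : ℝ) ^ j := by
          rw [Finset.mul_sum]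
      _ ≤ min (δ / 4) (ε / 8) * 2 := mul_le_mul_of_nonneg_left h1 hc.le
      _ ≤ ε / 4 := by linarith
  let U : ℕ → Set X := fun n => Metric.thickening (η n) (t n ∩ K)
  let w : ℕ → ℝ := fun n => (Metric.ediam (t n)).toReal + 2 * η n
  have hdfin : ∀ n, Metric.ediam (t n) ≠ ⊤ := fun n => ((htd n).trans_lt ENNReal.ofReal_lt_top).ne
  have hUopen : ∀ n, IsOpen (U n) := fun n => Metric.isOpen_thickening
  have hKU : K ⊆ ⋃ n, U n := by
    intro x hx
    obtain ⟨n, hn⟩ := Set.mem_iUnion.mp (htcov hx)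
    exact Set.mem_iUnion.mpr ⟨n, Metric.self_subset_thickening (hη n) _ ⟨hn, hx⟩⟩
  obtain ⟨J0, hJ0⟩ := hK.elim_finite_subcover U hUopen hKU
  let J : Finset ℕ := J0.filter (fun n => (t n ∩ K).Nonempty)
  refine ⟨J, U, w, hUopen, ?_, ?_, ?_, ?_, ?_⟩
  · intro x hx
    obtain ⟨n, hn, hxn⟩ := Set.mem_iUnion₂.mp (hJ0 hx)
    refine Set.mem_iUnion₂.mpr ⟨n, ?_, hxn⟩
    simp only [J, Finset.mem_filter]
    refine ⟨hn, ?_⟩
    obtain ⟨z, hz, _⟩ := Metric.mem_thickening_iff.mp hxn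
    exact ⟨z, hz⟩
  · intro j hj
    simp only [J, Finset.mem_filter] at hj
    obtain ⟨z, hz⟩ := hj.2
    exact ⟨z, hz.2, Metric.self_subset_thickening (hη j) _ hz⟩
  · intro j _ a ha b hb
    obtain ⟨a', ha', haa⟩ := Metric.mem_thickening_iff.mp ha
    obtain ⟨b', hb', hbb⟩ := Metric.mem_thickening_iff.mp hb
    have h1 : dist a' b' ≤ (Metric.ediam (t j)).toReal := by
      rw [dist_edist]
      exact ENNReal.toReal_mono (hdfin j) (Metric.edist_le_ediam_of_mem ha'.1 hb'.1)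
    have h2 := dist_triangle4 a a' b' b
    rw [dist_comm b' b] at h2
    simp only [w]
    linarith
  · intro j _
    have h1 : (Metric.ediam (t j)).toReal ≤ δ / 2 := by
      have := ENNReal.toReal_mono ENNReal.ofReal_ne_top (htd j)
      rwa [ENNReal.toReal_ofReal (by linarith)] at this
    have := hηδ j
    simp only [w]
    linarith
  · have h1 : ∑ j ∈ J, Metric.ediam (t j) ≤ H + ENNReal.ofReal (ε / 2) := by
      refine le_trans ?_ hts.le
      refine le_trans ?_ (ENNReal.sum_le_tsum J)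
      refine Finset.sum_le_sum (fun j hj => ?_)
      simp only [J, Finset.mem_filter] at hj
      have hne : (t j).Nonempty := hj.2.mono Set.inter_subset_left
      rw [ENNReal.rpow_one]
      exact le_iSup (fun _ : (t j).Nonempty => Metric.ediam (t j)) hne
    have h2 : ∑ j ∈ J, (Metric.ediam (t j)).toReal ≤ H.toReal + ε / 2 := by
      rw [← ENNReal.toReal_sum (fun j _ => hdfin j)]
      have h3 := ENNReal.toReal_mono (ENNReal.add_ne_top.mpr ⟨hfin, ENNReal.ofReal_ne_top⟩) h1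
      rwa [ENNReal.toReal_add hfin ENNReal.ofReal_ne_top,
        ENNReal.toReal_ofReal (by linarith)] at h3
    have h4 := hηsum J
    simp only [w]
    rw [Finset.sum_add_distrib, ← Finset.mul_sum]
    linarith

end Pool.Agent.H80
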