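import Mathlib
import Pool.Agent.H80.Cover

/-!
The two-sided tree theorem: a continuum of small length which crosses a long strip gives two
trees, one for the terminals on each side of the strip, planted at a common point.
-/

set_option autoImplicit false

namespace Pool.Agent.H80

open Set MeasureTheory

/-- If finitely many intervals of total length below twice the length of `(t0,t1)` cover `(t0,t1)`
then some point is covered exactly once. -/
theorem exists_covered_once (J : Finset ℕ) (lo hi w : ℕ → ℝ) (t0 t1 : ℝ)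
    (hw : ∀ j ∈ J, hi j - lo j ≤ w j) (hw0 : ∀ j ∈ J, 0 ≤ w j)
    (hsum : ∑ j ∈ J, w j < 2 * (t1 - t0))
    (hcov : ∀ t ∈ Ioo t0 t1, ∃ j ∈ J, t ∈ Icc (lo j) (hi j)) :
    ∃ t ∈ Ioo t0 t1, ∃ j0 ∈ J, t ∈ Icc (lo j0) (hi j0) ∧ ∀ j ∈ J, j ≠ j0 → t ∉ Icc (lo j) (hi j) := by
  classical
  by_contra hcon
  push Not at hcon
  have htwo : ∀ t ∈ Ioo t0 t1, (2 : ENNReal) ≤ ∑ j ∈ J, (Icc (lo j) (hi j)).indicator (fun _ => (1 : ENNReal)) t := by
    intro t ht
    obtain ⟨j0, hj0, htj0⟩ := hcov t ht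
    obtain ⟨j, hj, hne, htj⟩ := hcon t ht j0 hj0 htj0
    have hsub : ({j0, j} : Finset ℕ) ⊆ J := by
      intro i hi
      rw [Finset.mem_insert, Finset.mem_singleton] at hi
      rcases hi with rfl | rfl <;> assumption
    refine le_trans ?_ (Finset.sum_le_sum_of_subset hsub)
    rw [Finset.sum_pair (Ne.symm hne), Set.indicator_of_mem htj0, Set.indicator_of_mem htj]
    norm_num
  have h1 : (2 : ENNReal) * ENNReal.ofReal (t1 - t0) ≤
      ∫⁻ t in Ioo t0 t1, ∑ j ∈ J, (Icc (lo j) (hi j)).indicator (fun _ => (1 : ENNReal)) t := by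
    calc (2 : ENNReal) * ENNReal.ofReal (t1 - t0) = ∫⁻ _t in Ioo t0 t1, (2 : ENNReal) := by
          rw [setLIntegral_const, Real.volume_Ioo]
      _ ≤ _ := setLIntegral_mono' measurableSet_Ioo htwo
  have h2 : ∫⁻ t in Ioo t0 t1, ∑ j ∈ J, (Icc (lo j) (hi j)).indicator (fun _ => (1 : ENNReal)) t
      ≤ ∑ j ∈ J, ENNReal.ofReal (w j) := by
    rw [lintegral_finsetSum']
    · refine Finset.sum_le_sum (fun j hj => ?_)
      calc ∫⁻ t in Ioo t0 t1, (Icc (lo j) (hi j)).indicator (fun _ => (1 : ENNReal)) t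
          ≤ ∫⁻ t, (Icc (lo j) (hi j)).indicator (fun _ => (1 : ENNReal)) t :=
            setLIntegral_le_lintegral _ _
        _ = ENNReal.ofReal (hi j - lo j) := by
            rw [lintegral_indicator measurableSet_Icc, setLIntegral_const, Real.volume_Icc, one_mul]
        _ ≤ ENNReal.ofReal (w j) := ENNReal.ofReal_le_ofReal (hw j hj)
    · intro j _
      exact (measurable_const.indicator measurableSet_Icc).aemeasurable
  rw [← ENNReal.ofReal_sum_of_nonneg hw0] at h2
  have h3 := h1.trans h2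
  have h4 : (2 : ENNReal) = ENNReal.ofReal 2 := by norm_num
  rw [h4, ← ENNReal.ofReal_mul (by norm_num : (0:ℝ) ≤ 2)] at h3
  have h5 : (2 * (t1 - t0)) ≤ ∑ j ∈ J, w j := by
    rw [ENNReal.ofReal_le_ofReal_iff (Finset.sum_nonneg hw0)] at h3
    exact h3
  linarith

variable {ι κ X : Type} [MetricSpace X] [MeasurableSpace X] [BorelSpace X]

open PT in
theorem two_sided (K : Set X) (hK : IsCompact K) (hKc : IsConnected K) (φ : X → ℝ)
    (hφ : ∀ a b, |φ a - φ b| ≤ dist a b) (q : ι → X) (q' : κ → X) (L : Finset ι) (R : Finset κ)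
    (hL : L.Nonempty) (hR : R.Nonempty) (t0 t1 : ℝ) (h01 : t0 < t1)
    (hqL : ∀ i ∈ L, q i ∈ K ∧ φ (q i) ≤ t0) (hqR : ∀ i ∈ R, q' i ∈ K ∧ t1 ≤ φ (q' i))
    (hH : Measure.hausdorffMeasure 1 K < ENNReal.ofReal (2 * (t1 - t0))) (ε : ℝ) (hε : 0 < ε) :
    ∃ (x : X) (tL : PT ι X) (tR : PT κ X), tL.labels = L.val ∧ tR.labels = R.val ∧
      cost q (x, tL) + cost q' (x, tR) ≤ (Measure.hausdorffMeasure 1 K).toReal + ε := by
  classical
  have hfin : Measure.hausdorffMeasure 1 K ≠ ⊤ := (hH.trans ENNReal.ofReal_lt_top).ne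
  set h : ℝ := (Measure.hausdorffMeasure 1 K).toReal with hh
  have hlt : h < 2 * (t1 - t0) := by
    have := (ENNReal.toReal_lt_toReal hfin ENNReal.ofReal_ne_top).mpr hH
    rwa [ENNReal.toReal_ofReal (by linarith)] at this
  have hcont : Continuous φ := by
    have : LipschitzWith 1 φ := LipschitzWith.of_dist_le_mul (fun a b => by
      rw [Real.dist_eq]; simpa using hφ a b)
    exact this.continuous
  -- parameters
  set ε' : ℝ := min (ε / 2) ((2 * (t1 - t0) - h) / 2) with hε'
  have hε'0 : 0 < ε' := lt_min (by linarith) (by linarith)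
  have hε'1 : ε' ≤ ε / 2 := min_le_left _ _
  have hε'2 : ε' ≤ (2 * (t1 - t0) - h) / 2 := min_le_right _ _
  set n : ℝ := (L.card : ℝ) + R.card with hn
  have hn1 : 1 ≤ n := by
    have : (1 : ℝ) ≤ L.card := by exact_mod_cast Finset.card_pos.mpr hL
    have h2 : (0 : ℝ) ≤ R.card := by positivity
    linarith
  set δ : ℝ := ε / (2 * n) with hδ
  have hδ0 : 0 < δ := by positivity
  have hδn : n * δ = ε / 2 := by rw [hδ]; field_simp
  obtain ⟨J, U, w, hUo, hcov, hmeet, hU, hw, hsum⟩ := exists_cover K hK hfin ε' δ hε'0 hδ0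
  rw [← hh] at hsum
  have hw0 : ∀ j ∈ J, 0 ≤ w j := fun j hj => by
    obtain ⟨z, _, hz⟩ := hmeet j hj
    have := hU j hj z hz z hz
    simpa using this
  let lo : ℕ → ℝ := fun j => sInf (φ '' U j)
  let hi : ℕ → ℝ := fun j => sSup (φ '' U j)
  have hbb : ∀ j ∈ J, BddBelow (φ '' U j) := fun j hj => by
    obtain ⟨z, _, hz⟩ := hmeet j hj
    refine ⟨φ z - w j, ?_⟩
    rintro _ ⟨y, hy, rfl⟩
    have h1 := hφ z y
    have h2 := hU j hj z hz y hy
    have h3 := le_abs_self (φ z - φ y)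
    linarith
  have hba : ∀ j ∈ J, BddAbove (φ '' U j) := fun j hj => by
    obtain ⟨z, _, hz⟩ := hmeet j hj
    refine ⟨φ z + w j, ?_⟩
    rintro _ ⟨y, hy, rfl⟩
    have h1 := hφ z y
    have h2 := hU j hj z hz y hy
    have h3 := neg_abs_le (φ z - φ y)
    linarith
  have hlohi : ∀ j ∈ J, ∀ y ∈ U j, lo j ≤ φ y ∧ φ y ≤ hi j := fun j hj y hy =>
    ⟨csInf_le (hbb j hj) ⟨y, hy, rfl⟩, le_csSup (hba j hj) ⟨y, hy, rfl⟩⟩
  have hwid : ∀ j ∈ J, hi j - lo j ≤ w j := fun j hj => by
    obtain ⟨z, _, hz⟩ := hmeet j hj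
    have hne : (φ '' U j).Nonempty := ⟨φ z, z, hz, rfl⟩
    have h1 : hi j ≤ lo j + w j := by
      refine csSup_le hne ?_
      rintro _ ⟨y, hy, rfl⟩
      have h2 : φ y - w j ≤ lo j := by
        refine le_csInf hne ?_
        rintro _ ⟨y', hy', rfl⟩
        have h1 := hφ y y'
        have h2 := hU j hj y hy y' hy'
        have h3 := le_abs_self (φ y - φ y')
        linarith
      linarith
    linarith
  -- every level is attained
  obtain ⟨il, hil⟩ := hL
  obtain ⟨ir, hir⟩ := hR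
  have hlevel : ∀ t ∈ Ioo t0 t1, ∃ y ∈ K, φ y = t := by
    intro t ht
    have hpc : IsPreconnected (φ '' K) := hKc.isPreconnected.image φ hcont.continuousOn
    have hsub := hpc.Icc_subset ⟨q il, (hqL il hil).1, rfl⟩ ⟨q' ir, (hqR ir hir).1, rfl⟩
    have htm : t ∈ Icc (φ (q il)) (φ (q' ir)) :=
      ⟨(hqL il hil).2.trans ht.1.le, ht.2.le.trans (hqR ir hir).2⟩
    obtain ⟨y, hy, hyt⟩ := hsub htm
    exact ⟨y, hy, hyt⟩
  have hcov1 : ∀ t ∈ Ioo t0 t1, ∃ j ∈ J, t ∈ Icc (lo j) (hi j) := by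
    intro t ht
    obtain ⟨y, hy, hyt⟩ := hlevel t ht
    obtain ⟨j, hj, hyj⟩ := Set.mem_iUnion₂.mp (hcov hy)
    refine ⟨j, hj, ?_⟩
    rw [← hyt]
    exact hlohi j hj y hyj
  obtain ⟨t, ht, j0, hj0, htj0, honce⟩ := exists_covered_once J lo hi w t0 t1 hwid hw0
    (by linarith) hcov1
  obtain ⟨x, hxK, hxt⟩ := hlevel t ht
  have hxj0 : x ∈ U j0 := by
    obtain ⟨j, hj, hxj⟩ := Set.mem_iUnion₂.mp (hcov hxK)
    by_cases hjj : j = j0
    · rwa [hjj] at hxj
    · exact absurd (hxt ▸ hlohi j hj x hxj) (honce j hj hjj)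
  let JL : Finset ℕ := J.filter (fun j => j = j0 ∨ hi j < t)
  let JR : Finset ℕ := J.filter (fun j => j = j0 ∨ t < lo j)
  have hside : ∀ j ∈ J, j ≠ j0 → hi j < t ∨ t < lo j := by
    intro j hj hne
    have := honce j hj hne
    rw [Set.mem_Icc, not_and_or, not_le, not_le] at this
    rcases this with h | h
    · exact Or.inr h
    · exact Or.inl h
  have hjoinL : Joins q U w δ x JL := by
    have : Nonempty X := ⟨x⟩
    refine joins_of_connected q U w δ x K hKc.isPreconnected J JL j0 (Finset.filter_subset _ _) ?_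
      hUo hcov hmeet hU hw hxj0 ?_
    · simp [JL, hj0]
    · intro j hj hjj i hi' hiL
      simp only [JL, Finset.mem_filter] at hj hiL
      rintro ⟨y, hyi, hyj⟩
      have h1 : φ y < t := by
        rcases hj.2 with h | h
        · exact absurd h hjj
        · exact (hlohi j hj.1 y hyj).2.trans_lt h
      have hij0 : i ≠ j0 := fun h => hiL ⟨hi', Or.inl h⟩
      rcases hside i hi' hij0 with h | h
      · exact hiL ⟨hi', Or.inr h⟩
      · have := (hlohi i hi' y hyi).1
        linarith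
  have hjoinR : Joins q' U w δ x JR := by
    have : Nonempty X := ⟨x⟩
    refine joins_of_connected q' U w δ x K hKc.isPreconnected J JR j0 (Finset.filter_subset _ _) ?_
      hUo hcov hmeet hU hw hxj0 ?_
    · simp [JR, hj0]
    · intro j hj hjj i hi' hiL
      simp only [JR, Finset.mem_filter] at hj hiL
      rintro ⟨y, hyi, hyj⟩
      have h1 : t < φ y := by
        rcases hj.2 with h | h
        · exact absurd h hjj
        · exact h.trans_le (hlohi j hj.1 y hyj).1
      have hij0 : i ≠ j0 := fun h => hiL ⟨hi', Or.inl h⟩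
      rcases hside i hi' hij0 with h | h
      · have := (hlohi i hi' y hyi).2
        linarith
      · exact hiL ⟨hi', Or.inr h⟩
  -- apply to the planted leaves
  have hleaves : ∀ (ι : Type) (q : ι → X) (S : Finset ι),
      ((S.val.map (fun i => (q i, (leaf i : PT ι X)))).map (fun p => p.2.labels)).sum = S.val := by
    intro ι q S
    rw [Multiset.map_map]
    simp only [Function.comp_def, labels_leaf]
    exact Multiset.sum_map_singleton S.val
  have hcosts : ∀ (ι : Type) (q : ι → X) (S : Finset ι),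
      ((S.val.map (fun i => (q i, (leaf i : PT ι X)))).map (cost q)).sum = 0 := by
    intro ι q S
    rw [Multiset.map_map]
    refine Multiset.sum_eq_zero (fun y hy => ?_)
    obtain ⟨i, _, rfl⟩ := Multiset.mem_map.mp hy
    simp [cost, pos_leaf, len_leaf]
  obtain ⟨tL, htL, hcL⟩ := hjoinL (L.val.map (fun i => (q i, (leaf i : PT ι X)))) (by
      intro h
      rw [Multiset.map_eq_zero] at h
      exact Finset.notMem_empty il (by rw [← Finset.val_eq_zero.mp h]; exact hil)) (by
    intro p hp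
    obtain ⟨i, hi', rfl⟩ := Multiset.mem_map.mp hp
    obtain ⟨hqK, hqt⟩ := hqL i hi'
    obtain ⟨j, hj, hqj⟩ := Set.mem_iUnion₂.mp (hcov hqK)
    refine ⟨j, ?_, hqj⟩
    simp only [JL, Finset.mem_filter]
    refine ⟨hj, ?_⟩
    by_cases hjj : j = j0
    · exact Or.inl hjj
    · rcases hside j hj hjj with h | h
      · exact Or.inr h
      · have := (hlohi j hj _ hqj).1
        have := ht.1
        linarith)
  obtain ⟨tR, htR, hcR⟩ := hjoinR (R.val.map (fun i => (q' i, (leaf i : PT κ X)))) (by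
      intro h
      rw [Multiset.map_eq_zero] at h
      exact Finset.notMem_empty ir (by rw [← Finset.val_eq_zero.mp h]; exact hir)) (by
    intro p hp
    obtain ⟨i, hi', rfl⟩ := Multiset.mem_map.mp hp
    obtain ⟨hqK, hqt⟩ := hqR i hi'
    obtain ⟨j, hj, hqj⟩ := Set.mem_iUnion₂.mp (hcov hqK)
    refine ⟨j, ?_, hqj⟩
    simp only [JR, Finset.mem_filter]
    refine ⟨hj, ?_⟩
    by_cases hjj : j = j0
    · exact Or.inl hjj
    · rcases hside j hj hjj with h | h
      · have := (hlohi j hj _ hqj).2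
        have := ht.2
        linarith
      · exact Or.inr h)
  refine ⟨x, tL, tR, htL.trans (hleaves ι q L), htR.trans (hleaves κ q' R), ?_⟩
  rw [hcosts, zero_add, Multiset.card_map] at hcL hcR
  -- the two families overlap only in `j0`
  have hJsum : ∑ j ∈ JL, w j + ∑ j ∈ JR, w j ≤ ∑ j ∈ J, w j + w j0 := by
    have hunion : JL ∪ JR ⊆ J := Finset.union_subset (Finset.filter_subset _ _) (Finset.filter_subset _ _)
    have hinter : JL ∩ JR ⊆ {j0} := by
      intro j hj
      simp only [JL, JR, Finset.mem_inter, Finset.mem_filter] at hj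
      rw [Finset.mem_singleton]
      by_contra hne
      have h1 := hj.1.2.resolve_left hne
      have h2 := hj.2.2.resolve_left hne
      obtain ⟨z, _, hz⟩ := hmeet j hj.1.1
      have := hlohi j hj.1.1 z hz
      linarith [this.1, this.2]
    rw [← Finset.sum_union_inter]
    have h1 : ∑ j ∈ JL ∪ JR, w j ≤ ∑ j ∈ J, w j :=
      Finset.sum_le_sum_of_subset_of_nonneg hunion (fun j hj _ => hw0 j hj)
    have h2 : ∑ j ∈ JL ∩ JR, w j ≤ ∑ j ∈ ({j0} : Finset ℕ), w j :=
      Finset.sum_le_sum_of_subset_of_nonneg hinter (fun j hj _ => by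
        rw [Finset.mem_singleton] at hj; rw [hj]; exact hw0 j0 hj0)
    rw [Finset.sum_singleton] at h2
    linarith
  have hwj0 := hw j0 hj0
  have hcardL : (Multiset.card L.val : ℝ) = L.card := rfl
  have hcardR : (Multiset.card R.val : ℝ) = R.card := rfl
  rw [hcardL] at hcL
  rw [hcardR] at hcR
  have : ((L.card : ℝ) - 1) * δ + ((R.card : ℝ) - 1) * δ + δ = n * δ - δ := by rw [hn]; ring
  linarith

end Pool.Agent.H80
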