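import Mathlib
import Pool.Agent.H80.TwoSided
import Pool.Agent.H80.Cap

/-!
The ten terminals, the two trees and the lower bound.
-/

set_option autoImplicit false

namespace Pool.Agent.H80

open Set MeasureTheory

/-- Orientation of the cap: `1` on the left, `-1` on the right. -/
noncomputable def sg (s : Bool) : ℝ := if s then -1 else 1
/-- Offset of the cap: `0` on the left, `10` on the right. -/
noncomputable def off (s : Bool) : ℝ := if s then 10 else 0

/-- The ten terminals. -/
noncomputable def pt (p : Bool × Fin 5) : E2 := emb (off p.1 + sg p.1 * ax p.2) (ay p.2)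
/-- The ten ball centres. -/
noncomputable def ctr (r : ℝ) (p : Bool × Fin 5) : E2 :=
  emb (off p.1 + sg p.1 * yx r p.2) (yy r p.2)

theorem emb_inj (a b c d : ℝ) (h : emb a b = emb c d) : a = c ∧ b = d := by
  have h3 : Real.sqrt 3 ≠ 0 := by positivity
  have h0 := congrArg (fun z : E2 => z 0) h
  have h1 := congrArg (fun z : E2 => z 1) h
  simp only [emb] at h0 h1
  simp at h0 h1
  exact ⟨h0, h1⟩

theorem emb_dist_sq (a b c d : ℝ) : dist (emb a b) (emb c d) ^ 2 = (a - c) ^ 2 + 3 * (b - d) ^ 2 := by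
  rw [dist_eq_norm, emb_sub, emb_norm_sq]

theorem emb_dist_eq (a b c d n : ℝ) (hn : 0 ≤ n) (h : (a - c) ^ 2 + 3 * (b - d) ^ 2 = n ^ 2) :
    dist (emb a b) (emb c d) = n := by
  have h1 := emb_dist_sq a b c d
  rw [h] at h1
  exact (pow_left_inj₀ dist_nonneg hn (by norm_num)).mp h1

theorem emb_zero (a b : ℝ) : (emb a b) 0 = a := by simp [emb]

theorem ay_inj : Function.Injective ay := by
  intro i j h
  fin_cases i <;> fin_cases j <;> first | rfl | (exfalso; simp [ay] at h <;> norm_num at h)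

theorem yy_inj (r : ℝ) (hr0 : 0 < r) (hr1 : r ≤ 1 / 100) : Function.Injective (yy r) := by
  intro i j h
  fin_cases i <;> fin_cases j <;> first | rfl | (exfalso; simp [yy] at h <;> linarith)

theorem ax_bd (i : Fin 5) : 0 ≤ ax i ∧ ax i ≤ 1 / 2 := by
  fin_cases i <;> simp [ax]

theorem yx_bd (r : ℝ) (hr0 : 0 < r) (hr1 : r ≤ 1 / 100) (i : Fin 5) :
    -1 / 100 ≤ yx r i ∧ yx r i ≤ 51 / 100 := by
  fin_cases i <;> simp [yx] <;> constructor <;> linarith

theorem pt_inj : Function.Injective pt := by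
  rintro ⟨s, i⟩ ⟨t, j⟩ h
  obtain ⟨h1, h2⟩ := emb_inj _ _ _ _ h
  have hij := ay_inj h2
  subst hij
  have := ax_bd i
  cases s <;> cases t <;> simp [sg, off] at h1 ⊢ <;> linarith

theorem ctr_inj (r : ℝ) (hr0 : 0 < r) (hr1 : r ≤ 1 / 100) : Function.Injective (ctr r) := by
  rintro ⟨s, i⟩ ⟨t, j⟩ h
  obtain ⟨h1, h2⟩ := emb_inj _ _ _ _ h
  have hij := yy_inj r hr0 hr1 h2
  subst hij
  have := yx_bd r hr0 hr1 i
  cases s <;> cases t <;> simp [sg, off] at h1 ⊢ <;> linarith

theorem dist_ctr_pt (r : ℝ) (hr0 : 0 < r) (p : Bool × Fin 5) : dist (ctr r p) (pt p) = r := by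
  obtain ⟨s, i⟩ := p
  refine emb_dist_eq _ _ _ _ _ hr0.le ?_
  cases s <;> fin_cases i <;> simp [sg, off, ax, ay, yx, yy] <;> ring

/-- The zigzag joining the five terminals of a cap. -/
noncomputable def Z (s : Bool) : Set E2 :=
  segment ℝ (pt (s, 0)) (pt (s, 1)) ∪ segment ℝ (pt (s, 1)) (pt (s, 2)) ∪
    segment ℝ (pt (s, 2)) (pt (s, 3)) ∪ segment ℝ (pt (s, 3)) (pt (s, 4))

/-- The two trees: `Tr 1` uses the upper bridge, `Tr 3` the lower one. -/
noncomputable def Tr (j : Fin 5) : Set E2 :=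
  Z false ∪ segment ℝ (pt (false, j)) (pt (true, j)) ∪ Z true

theorem isCompact_seg (x y : E2) : IsCompact (segment ℝ x y) := by
  rw [segment_eq_image]
  refine isCompact_Icc.image ?_
  fun_prop

theorem isConnected_seg (x y : E2) : IsConnected (segment ℝ x y) :=
  ⟨⟨x, left_mem_segment ℝ x y⟩, (convex_segment x y).isPreconnected⟩

theorem isCompact_Z (s : Bool) : IsCompact (Z s) :=
  (((isCompact_seg _ _).union (isCompact_seg _ _)).union (isCompact_seg _ _)).union
    (isCompact_seg _ _)

theorem isConnected_Z (s : Bool) : IsConnected (Z s) := by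
  refine IsConnected.union ⟨pt (s, 3), Or.inr (right_mem_segment ℝ _ _), left_mem_segment ℝ _ _⟩
    (IsConnected.union ⟨pt (s, 2), Or.inr (right_mem_segment ℝ _ _), left_mem_segment ℝ _ _⟩
      (IsConnected.union ⟨pt (s, 1), right_mem_segment ℝ _ _, left_mem_segment ℝ _ _⟩
        (isConnected_seg _ _) (isConnected_seg _ _)) (isConnected_seg _ _)) (isConnected_seg _ _)

theorem pt_mem_Z (s : Bool) (i : Fin 5) : pt (s, i) ∈ Z s := by
  fin_cases i
  · exact Or.inl (Or.inl (Or.inl (left_mem_segment ℝ _ _)))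
  · exact Or.inl (Or.inl (Or.inl (right_mem_segment ℝ _ _)))
  · exact Or.inl (Or.inl (Or.inr (right_mem_segment ℝ _ _)))
  · exact Or.inl (Or.inr (right_mem_segment ℝ _ _))
  · exact Or.inr (right_mem_segment ℝ _ _)

theorem isCompact_Tr (j : Fin 5) : IsCompact (Tr j) :=
  ((isCompact_Z _).union (isCompact_seg _ _)).union (isCompact_Z _)

theorem isConnected_Tr (j : Fin 5) : IsConnected (Tr j) := by
  refine IsConnected.union ⟨pt (true, j), Or.inr (right_mem_segment ℝ _ _), pt_mem_Z _ _⟩
    (IsConnected.union ⟨pt (false, j), pt_mem_Z _ _, left_mem_segment ℝ _ _⟩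
      (isConnected_Z _) (isConnected_seg _ _)) (isConnected_Z _)

theorem pt_mem_Tr (j : Fin 5) (p : Bool × Fin 5) : pt p ∈ Tr j := by
  obtain ⟨s, i⟩ := p
  cases s
  · exact Or.inl (Or.inl (pt_mem_Z _ _))
  · exact Or.inr (pt_mem_Z _ _)

theorem measure_seg (x y : E2) (n : ℝ) (h : dist x y = n) :
    Measure.hausdorffMeasure 1 (segment ℝ x y) = ENNReal.ofReal n := by
  rw [hausdorffMeasure_segment, edist_dist, h]

theorem measure_Z_le (s : Bool) : Measure.hausdorffMeasure 1 (Z s) ≤ ENNReal.ofReal 4 := by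
  have h : ∀ i : Fin 4, dist (pt (s, i.castSucc)) (pt (s, i.succ)) = 1 := by
    intro i
    refine emb_dist_eq _ _ _ _ _ (by norm_num) ?_
    cases s <;> fin_cases i <;> simp [sg, off, ax, ay] <;> norm_num
  have h4 : ENNReal.ofReal 4 = ENNReal.ofReal 1 + ENNReal.ofReal 1 + ENNReal.ofReal 1 +
      ENNReal.ofReal 1 := by
    rw [← ENNReal.ofReal_add (by norm_num) (by norm_num),
      ← ENNReal.ofReal_add (by norm_num) (by norm_num),
      ← ENNReal.ofReal_add (by norm_num) (by norm_num)]
    norm_num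
  rw [h4, Z]
  refine (measure_union_le _ _).trans (add_le_add ((measure_union_le _ _).trans
    (add_le_add ((measure_union_le _ _).trans (add_le_add ?_ ?_)) ?_)) ?_)
  · exact (measure_seg _ _ 1 (h 0)).le
  · exact (measure_seg _ _ 1 (h 1)).le
  · exact (measure_seg _ _ 1 (h 2)).le
  · exact (measure_seg _ _ 1 (h 3)).le

theorem measure_Tr_le (j : Fin 5) (hj : ax j = 1 / 2) :
    Measure.hausdorffMeasure 1 (Tr j) ≤ ENNReal.ofReal 17 := by
  have h : dist (pt (false, j)) (pt (true, j)) = 9 := by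
    refine emb_dist_eq _ _ _ _ _ (by norm_num) ?_
    simp only [sg, off, hj]
    norm_num
  have h4 : ENNReal.ofReal 17 = ENNReal.ofReal 4 + ENNReal.ofReal 9 + ENNReal.ofReal 4 := by
    rw [← ENNReal.ofReal_add (by norm_num) (by norm_num),
      ← ENNReal.ofReal_add (by norm_num) (by norm_num)]
    norm_num
  rw [h4, Tr]
  exact (measure_union_le _ _).trans (add_le_add ((measure_union_le _ _).trans
    (add_le_add (measure_Z_le _) (measure_seg _ _ 9 h).le)) (measure_Z_le _))

/-- The lower bound: a continuum which comes within `r` of all ball centres has length at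
least `17`. -/
theorem lower_bound (r : ℝ) (hr0 : 0 < r) (hr1 : r ≤ 1 / 100) (W : Set E2) (hW : IsCompact W)
    (hWc : IsConnected W) (h : ∀ p, Metric.infDist (ctr r p) W ≤ r) :
    ENNReal.ofReal 17 ≤ Measure.hausdorffMeasure 1 W := by
  by_contra hcon
  push Not at hcon
  have hex : ∀ p : Bool × Fin 5, ∃ z ∈ W, dist z (ctr r p) ≤ r := by
    intro p
    obtain ⟨z, hz, hd⟩ := hW.exists_infDist_eq_dist hWc.nonempty (ctr r p)
    exact ⟨z, hz, by rw [dist_comm, ← hd]; exact h p⟩
  choose Q hQW hQd using hex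
  have hφ : ∀ a b : E2, |a 0 - b 0| ≤ dist a b := by
    intro a b
    rw [dist_eq_norm]
    have := PiLp.norm_apply_le (a - b) 0
    simpa using this
  have hfin : Measure.hausdorffMeasure 1 W ≠ ⊤ := (hcon.trans ENNReal.ofReal_lt_top).ne
  set m : ℝ := (Measure.hausdorffMeasure 1 W).toReal with hm
  have hm17 : m < 17 := by
    have := (ENNReal.toReal_lt_toReal hfin ENNReal.ofReal_ne_top).mpr hcon
    rwa [ENNReal.toReal_ofReal (by norm_num)] at this
  obtain ⟨x, tL, tR, htL, htR, hc⟩ := two_sided W hW hWc (fun z : E2 => z 0) hφ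
    (fun i => Q (false, i)) (fun i => Q (true, i)) Finset.univ Finset.univ
    Finset.univ_nonempty Finset.univ_nonempty (52 / 100) (948 / 100) (by norm_num)
    (by
      intro i _
      refine ⟨hQW _, ?_⟩
      have h1 := (hφ (Q (false, i)) (ctr r (false, i))).trans (hQd (false, i))
      have h2 := le_abs_self ((Q (false, i)) 0 - (ctr r (false, i)) 0)
      have h3 : (ctr r (false, i)) 0 = yx r i := by
        simp [ctr, emb_zero, sg, off]
      have h4 := (yx_bd r hr0 hr1 i).2
      show (Q (false, i)) 0 ≤ 52 / 100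
      linarith)
    (by
      intro i _
      refine ⟨hQW _, ?_⟩
      have h1 := (hφ (Q (true, i)) (ctr r (true, i))).trans (hQd (true, i))
      have h2 := neg_abs_le ((Q (true, i)) 0 - (ctr r (true, i)) 0)
      have h3 : (ctr r (true, i)) 0 = 10 - yx r i := by
        simp [ctr, emb_zero, sg, off]
        ring
      have h4 := (yx_bd r hr0 hr1 i).2
      show 948 / 100 ≤ (Q (true, i)) 0
      linarith)
    (hcon.trans (by
      rw [ENNReal.ofReal_lt_ofReal_iff (by norm_num)]
      norm_num)) ((17 - m) / 2) (by linarith)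
  have h1 := cap 1 0 r (by norm_num) hr0 hr1 (fun i => Q (false, i)) (fun i => by
    have := hQd (false, i)
    simpa [ctr, sg, off] using this) tL htL x
  have h2 := cap (-1) 10 r (by norm_num) hr0 hr1 (fun i => Q (true, i)) (fun i => by
    have := hQd (true, i)
    simpa [ctr, sg, off] using this) tR htR x
  rw [← hm] at hc
  linarith

end Pool.Agent.H80
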