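import Mathlib
import Pool.Agent.H80.Main

/-!
Local structure of the two trees at the terminals.
-/

set_option autoImplicit false

namespace Pool.Agent.H80

open Set MeasureTheory

/-- `a` lies in the relative interior of a segment contained in `S`. -/
def InSeg (S : Set E2) (a : E2) : Prop :=
  ∃ x y : E2, x ≠ y ∧ segment ℝ x y ⊆ S ∧ a ∈ openSegment ℝ x y

theorem not_inSeg (S : Set E2) (a : E2) (κ : ℝ)
    (h : ∀ z ∈ S, dist z a < 1 / 2 → κ * z 0 ≤ κ * a 0 ∧ (κ * z 0 = κ * a 0 → z = a)) :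
    ¬ InSeg S a := by
  rintro ⟨x, y, hxy, hS, α, β, hα, hβ, hαβ, ha⟩
  set v : E2 := y - x with hv
  have hv0 : v ≠ 0 := sub_ne_zero.mpr (Ne.symm hxy)
  have hvn : 0 < ‖v‖ := norm_pos_iff.mpr hv0
  set ε : ℝ := min (min α β) (1 / (4 * ‖v‖)) with hε
  have hε0 : 0 < ε := lt_min (lt_min hα hβ) (by positivity)
  have hεα : ε ≤ α := (min_le_left _ _).trans (min_le_left _ _)
  have hεβ : ε ≤ β := (min_le_left _ _).trans (min_le_right _ _)
  have hεv : ε * ‖v‖ < 1 / 2 := by
    have h1 : ε ≤ 1 / (4 * ‖v‖) := min_le_right _ _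
    calc ε * ‖v‖ ≤ 1 / (4 * ‖v‖) * ‖v‖ := mul_le_mul_of_nonneg_right h1 hvn.le
      _ = 1 / 4 := by field_simp
      _ < 1 / 2 := by norm_num
  have hz1 : a + ε • v ∈ segment ℝ x y := by
    refine ⟨α - ε, β + ε, by linarith, by linarith, by linarith, ?_⟩
    rw [← ha, hv]
    module
  have hz2 : a - ε • v ∈ segment ℝ x y := by
    refine ⟨α + ε, β - ε, by linarith, by linarith, by linarith, ?_⟩
    rw [← ha, hv]
    module
  have hd1 : dist (a + ε • v) a < 1 / 2 := by
    rw [dist_eq_norm, add_sub_cancel_left, norm_smul, Real.norm_eq_abs, abs_of_pos hε0]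
    exact hεv
  have hd2 : dist (a - ε • v) a < 1 / 2 := by
    rw [dist_eq_norm, sub_sub_cancel_left, norm_neg, norm_smul, Real.norm_eq_abs, abs_of_pos hε0]
    exact hεv
  obtain ⟨h1, h1'⟩ := h _ (hS hz1) hd1
  obtain ⟨h2, _⟩ := h _ (hS hz2) hd2
  have e1 : (a + ε • v) 0 = a 0 + ε * v 0 := by simp
  have e2 : (a - ε • v) 0 = a 0 - ε * v 0 := by simp
  rw [e1] at h1 h1'
  rw [e2] at h2
  have h3 : κ * (ε * v 0) = 0 := by nlinarith
  have h4 := h1' (by rw [mul_add, h3, add_zero])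
  have h5 : ε • v = 0 := by
    have := congrArg (fun w => w - a) h4
    simpa using this
  rcases smul_eq_zero.mp h5 with h6 | h6
  · exact hε0.ne' h6
  · exact hv0 h6

theorem seg_emb (a b c d : ℝ) (z : E2) (h : z ∈ segment ℝ (emb a b) (emb c d)) :
    ∃ θ : ℝ, 0 ≤ θ ∧ θ ≤ 1 ∧ z = emb (a + θ * (c - a)) (b + θ * (d - b)) := by
  rw [segment_eq_image] at h
  obtain ⟨θ, ⟨h0, h1⟩, rfl⟩ := h
  refine ⟨θ, h0, h1, ?_⟩
  ext i
  fin_cases i
  · simp [emb]; ring
  · simp [emb]; ring

theorem mem_Z (s : Bool) (z : E2) (h : z ∈ Z s) :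
    ∃ x b : ℝ, z = emb (off s + sg s * x) b ∧ 0 ≤ x ∧ x ≤ 1 / 2 ∧
      (x = 0 → b = 0 ∨ b = 1 ∨ b = -1) ∧ (x = 1 / 2 → b = 1 / 2 ∨ b = -1 / 2) := by
  rcases h with ((h | h) | h) | h
  · obtain ⟨θ, h0, h1, rfl⟩ := seg_emb _ _ _ _ z h
    refine ⟨θ / 2, 1 - θ / 2, ?_, by linarith, by linarith, ?_, ?_⟩
    · simp only [ax, ay, Matrix.cons_val]
      congr 1 <;> ring
    · intro hx; right; left; linarith
    · intro hx; left; linarith
  · obtain ⟨θ, h0, h1, rfl⟩ := seg_emb _ _ _ _ z h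
    refine ⟨(1 - θ) / 2, (1 - θ) / 2, ?_, by linarith, by linarith, ?_, ?_⟩
    · simp only [ax, ay, Matrix.cons_val]
      congr 1 <;> ring
    · intro hx; left; linarith
    · intro hx; left; linarith
  · obtain ⟨θ, h0, h1, rfl⟩ := seg_emb _ _ _ _ z h
    refine ⟨θ / 2, -θ / 2, ?_, by linarith, by linarith, ?_, ?_⟩
    · simp only [ax, ay, Matrix.cons_val]
      congr 1 <;> ring
    · intro hx; left; linarith
    · intro hx; right; linarith
  · obtain ⟨θ, h0, h1, rfl⟩ := seg_emb _ _ _ _ z h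
    refine ⟨(1 - θ) / 2, -(1 + θ) / 2, ?_, by linarith, by linarith, ?_, ?_⟩
    · simp only [ax, ay, Matrix.cons_val]
      congr 1 <;> ring
    · intro hx; right; right; linarith
    · intro hx; right; linarith

theorem mem_Tr (j : Fin 5) (hj : ax j = 1 / 2) (z : E2) (h : z ∈ Tr j) :
    (∃ (s : Bool) (x b : ℝ), z = emb (off s + sg s * x) b ∧ 0 ≤ x ∧ x ≤ 1 / 2 ∧
      (x = 0 → b = 0 ∨ b = 1 ∨ b = -1) ∧ (x = 1 / 2 → b = 1 / 2 ∨ b = -1 / 2)) ∨
    ∃ x : ℝ, z = emb x (ay j) ∧ 1 / 2 ≤ x ∧ x ≤ 19 / 2 := by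
  rcases h with (h | h) | h
  · exact Or.inl ⟨false, mem_Z _ _ h⟩
  · right
    obtain ⟨θ, h0, h1, rfl⟩ := seg_emb _ _ _ _ z h
    refine ⟨1 / 2 + 9 * θ, ?_, by linarith, by linarith⟩
    simp only [hj, off, sg]
    congr 1
    · norm_num; ring
    · ring
  · exact Or.inl ⟨true, mem_Z _ _ h⟩

theorem abs_lt_of_dist (a b c d : ℝ) (h : dist (emb a b) (emb c d) < 1 / 2) :
    (a - c) ^ 2 + 3 * (b - d) ^ 2 < 1 / 4 := by
  rw [← emb_dist_sq]
  nlinarith [dist_nonneg (x := emb a b) (y := emb c d)]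

/-- The outer terminals are not interior to segments of the trees. -/
theorem outer (j : Fin 5) (hj : ax j = 1 / 2) (s : Bool) (i : Fin 5) (hi : ax i = 0)
    (hi' : ay i = 0 ∨ ay i = 1 ∨ ay i = -1) : ¬ InSeg (Tr j) (pt (s, i)) := by
  refine not_inSeg _ _ (-sg s) (fun z hz hd => ?_)
  rcases mem_Tr j hj z hz with ⟨s', x, b, rfl, hx0, hx1, hb, _⟩ | ⟨x, rfl, hx0, hx1⟩
  · have h1 := abs_lt_of_dist _ _ _ _ hd
    simp only [pt, hi, mul_zero, add_zero, emb_zero] at h1 ⊢
    cases s <;> cases s' <;> simp only [sg, off, if_true, if_false, Bool.false_eq_true] at h1 ⊢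
    · refine ⟨by linarith, fun h => ?_⟩
      have hx : x = 0 := by linarith
      subst hx
      have hbb : b = ay i := by
        rcases hb rfl with rfl | rfl | rfl <;> rcases hi' with h | h | h <;> rw [h] at h1 ⊢ <;>
          exfalso <;> nlinarith
      rw [hbb]
      congr 1
      ring
    · exact absurd h1 (by nlinarith [sq_nonneg (b - ay i)])
    · exact absurd h1 (by nlinarith [sq_nonneg (b - ay i)])
    · refine ⟨by linarith, fun h => ?_⟩
      have hx : x = 0 := by linarith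
      subst hx
      have hbb : b = ay i := by
        rcases hb rfl with rfl | rfl | rfl <;> rcases hi' with h | h | h <;> rw [h] at h1 ⊢ <;>
          exfalso <;> nlinarith
      rw [hbb]
      congr 1
      ring
  · have h1 := abs_lt_of_dist _ _ _ _ hd
    simp only [pt, hi, mul_zero, add_zero, emb_zero] at h1 ⊢
    cases s <;> simp only [sg, off, if_true, if_false, Bool.false_eq_true] at h1 ⊢
    · exact absurd h1 (by nlinarith [sq_nonneg (ay j - ay i)])
    · exact absurd h1 (by nlinarith [sq_nonneg (ay j - ay i)])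

/-- The inner terminals are not interior to segments of the tree using the other bridge. -/
theorem inner_terminal (i j : Fin 5) (hj : ax j = 1 / 2) (hi : ax i = 1 / 2) (hij : ay i = - ay j)
    (hi' : ay i = 1 / 2 ∨ ay i = -1 / 2) (s : Bool) : ¬ InSeg (Tr j) (pt (s, i)) := by
  refine not_inSeg _ _ (sg s) (fun z hz hd => ?_)
  rcases mem_Tr j hj z hz with ⟨s', x, b, rfl, hx0, hx1, _, hb⟩ | ⟨x, rfl, hx0, hx1⟩
  · have h1 := abs_lt_of_dist _ _ _ _ hd
    simp only [pt, hi, emb_zero] at h1 ⊢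
    cases s <;> cases s' <;> simp only [sg, off, if_true, if_false, Bool.false_eq_true] at h1 ⊢
    · refine ⟨by linarith, fun h => ?_⟩
      have hx : x = 1 / 2 := by linarith
      subst hx
      have hbb : b = ay i := by
        rcases hb rfl with rfl | rfl <;> rcases hi' with h | h <;> rw [h] at h1 ⊢ <;>
          exfalso <;> nlinarith
      rw [hbb]
    · exact absurd h1 (by nlinarith [sq_nonneg (b - ay i)])
    · exact absurd h1 (by nlinarith [sq_nonneg (b - ay i)])
    · refine ⟨by linarith, fun h => ?_⟩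
      have hx : x = 1 / 2 := by linarith
      subst hx
      have hbb : b = ay i := by
        rcases hb rfl with rfl | rfl <;> rcases hi' with h | h <;> rw [h] at h1 ⊢ <;>
          exfalso <;> nlinarith
      rw [hbb]
  · have h1 := abs_lt_of_dist _ _ _ _ hd
    exfalso
    have h2 : ay j = - ay i := by rw [hij]; ring
    rw [h2] at h1
    rcases hi' with h | h <;> rw [h] at h1 <;>
      nlinarith [sq_nonneg (x - (off (s, i).1 + sg (s, i).1 * ax (s, i).2))]

/-- Antipodal criterion. -/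
theorem not_inSeg' (S : Set E2) (a : E2)
    (h : ∀ z ∈ S, ∀ z' ∈ S, dist z a < 1 / 2 → z + z' = a + a → z = a) :
    ¬ InSeg S a := by
  rintro ⟨x, y, hxy, hS, α, β, hα, hβ, hαβ, ha⟩
  set v : E2 := y - x with hv
  have hv0 : v ≠ 0 := sub_ne_zero.mpr (Ne.symm hxy)
  have hvn : 0 < ‖v‖ := norm_pos_iff.mpr hv0
  set ε : ℝ := min (min α β) (1 / (4 * ‖v‖)) with hε
  have hε0 : 0 < ε := lt_min (lt_min hα hβ) (by positivity)
  have hεα : ε ≤ α := (min_le_left _ _).trans (min_le_left _ _)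
  have hεβ : ε ≤ β := (min_le_left _ _).trans (min_le_right _ _)
  have hεv : ε * ‖v‖ < 1 / 2 := by
    have h1 : ε ≤ 1 / (4 * ‖v‖) := min_le_right _ _
    calc ε * ‖v‖ ≤ 1 / (4 * ‖v‖) * ‖v‖ := mul_le_mul_of_nonneg_right h1 hvn.le
      _ = 1 / 4 := by field_simp
      _ < 1 / 2 := by norm_num
  have hz1 : a + ε • v ∈ segment ℝ x y := by
    refine ⟨α - ε, β + ε, by linarith, by linarith, by linarith, ?_⟩
    rw [← ha, hv]
    module
  have hz2 : a - ε • v ∈ segment ℝ x y := by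
    refine ⟨α + ε, β - ε, by linarith, by linarith, by linarith, ?_⟩
    rw [← ha, hv]
    module
  have hd1 : dist (a + ε • v) a < 1 / 2 := by
    rw [dist_eq_norm, add_sub_cancel_left, norm_smul, Real.norm_eq_abs, abs_of_pos hε0]
    exact hεv
  have h4 := h _ (hS hz1) _ (hS hz2) hd1 (by abel)
  have h5 : ε • v = 0 := by
    have := congrArg (fun w => w - a) h4
    simpa using this
  rcases smul_eq_zero.mp h5 with h6 | h6
  · exact hε0.ne' h6
  · exact hv0 h6

/-- Near an inner terminal the cap consists of two rays. -/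
theorem mem_Z' (s : Bool) (z : E2) (h : z ∈ Z s) :
    ∃ x b : ℝ, z = emb (off s + sg s * x) b ∧ 0 ≤ x ∧ x ≤ 1 / 2 ∧
      (x = |b| ∨ x = 1 - |b|) := by
  rcases h with ((h | h) | h) | h
  · obtain ⟨θ, h0, h1, rfl⟩ := seg_emb _ _ _ _ z h
    refine ⟨θ / 2, 1 - θ / 2, ?_, by linarith, by linarith, ?_⟩
    · simp only [ax, ay, Matrix.cons_val]
      congr 1 <;> ring
    · right; rw [abs_of_nonneg (by linarith)]; ring
  · obtain ⟨θ, h0, h1, rfl⟩ := seg_emb _ _ _ _ z h
    refine ⟨(1 - θ) / 2, (1 - θ) / 2, ?_, by linarith, by linarith, ?_⟩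
    · simp only [ax, ay, Matrix.cons_val]
      congr 1 <;> ring
    · left; rw [abs_of_nonneg (by linarith)]
  · obtain ⟨θ, h0, h1, rfl⟩ := seg_emb _ _ _ _ z h
    refine ⟨θ / 2, -θ / 2, ?_, by linarith, by linarith, ?_⟩
    · simp only [ax, ay, Matrix.cons_val]
      congr 1 <;> ring
    · left; rw [abs_of_nonpos (by linarith)]; ring
  · obtain ⟨θ, h0, h1, rfl⟩ := seg_emb _ _ _ _ z h
    refine ⟨(1 - θ) / 2, -(1 + θ) / 2, ?_, by linarith, by linarith, ?_⟩
    · simp only [ax, ay, Matrix.cons_val]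
      congr 1 <;> ring
    · right; rw [abs_of_nonpos (by linarith)]; ring

/-- Points of the tree near an inner terminal which carries the bridge. -/
theorem near_inner (j : Fin 5) (hj : ax j = 1 / 2) (hj' : ay j = 1 / 2 ∨ ay j = -1 / 2) (s : Bool)
    (z : E2) (hz : z ∈ Tr j) (hd : dist z (pt (s, j)) < 1 / 2) :
    ∃ x b : ℝ, z = emb (off s + sg s * (1 / 2 + x)) (ay j + b) ∧ ((b = 0 ∧ 0 ≤ x) ∨ x = -|b|) := by
  have key : ∀ (s' : Bool) (z : E2), z ∈ Z s' → dist z (pt (s, j)) < 1 / 2 →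
      ∃ x b : ℝ, z = emb (off s + sg s * (1 / 2 + x)) (ay j + b) ∧
        ((b = 0 ∧ 0 ≤ x) ∨ x = -|b|) := by
    intro s' z hz hd
    obtain ⟨x, b, rfl, hx0, hx1, hb⟩ := mem_Z' s' z hz
    have h1 := abs_lt_of_dist _ _ _ _ hd
    have hss : s' = s := by
      by_contra hne
      simp only [hj] at h1
      cases s <;> cases s' <;> simp only [sg, off, if_true, if_false, Bool.false_eq_true] at h1 hne
      · exact hne trivial
      · nlinarith [sq_nonneg (b - ay j)]
      · nlinarith [sq_nonneg (b - ay j)]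
      · exact hne trivial
    subst hss
    refine ⟨x - 1 / 2, b - ay j, by congr 1 <;> ring, Or.inr ?_⟩
    simp only [hj] at h1
    have hs : sg s' ^ 2 = 1 := by cases s' <;> simp [sg]
    have h2 : (x - 1 / 2) ^ 2 + 3 * (b - ay j) ^ 2 < 1 / 4 := by
      have : (off s' + sg s' * x - (off s' + sg s' * (1 / 2))) ^ 2 = (x - 1 / 2) ^ 2 := by
        calc (off s' + sg s' * x - (off s' + sg s' * (1 / 2))) ^ 2
            = sg s' ^ 2 * (x - 1 / 2) ^ 2 := by ring
          _ = (x - 1 / 2) ^ 2 := by rw [hs, one_mul]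
      rw [this] at h1
      exact h1
    have h3 : |b - ay j| < 1 / 2 := by
      refine abs_lt_of_sq_lt_sq ?_ (by norm_num)
      nlinarith [sq_nonneg (x - 1 / 2)]
    rw [abs_lt] at h3
    rcases hj' with h | h <;> rw [h] at h3 ⊢
    · have hb0 : 0 < b := by linarith [h3.1]
      rw [abs_of_pos hb0] at hb
      rcases hb with hb | hb
      · rw [abs_of_nonpos (by linarith)]; linarith
      · rw [abs_of_nonneg (by linarith)]; linarith
    · have hb0 : b < 0 := by linarith [h3.2]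
      rw [abs_of_neg hb0] at hb
      rcases hb with hb | hb
      · rw [abs_of_nonneg (by linarith)]; linarith
      · rw [abs_of_nonpos (by linarith)]; linarith
  rcases hz with (hz | hz) | hz
  · exact key _ _ hz hd
  · obtain ⟨θ, h0, h1, rfl⟩ := seg_emb _ _ _ _ z hz
    cases s
    · refine ⟨9 * θ, 0, ?_, Or.inl ⟨rfl, by linarith⟩⟩
      simp only [hj, off, sg, if_true, if_false, Bool.false_eq_true]
      congr 1 <;> ring
    · refine ⟨9 * (1 - θ), 0, ?_, Or.inl ⟨rfl, by linarith⟩⟩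
      simp only [hj, off, sg, if_true, if_false, Bool.false_eq_true]
      congr 1 <;> ring
  · exact key _ _ hz hd

/-- The inner terminals are not interior to segments of the tree using their own bridge. -/
theorem inner_terminal' (j : Fin 5) (hj : ax j = 1 / 2) (hj' : ay j = 1 / 2 ∨ ay j = -1 / 2)
    (s : Bool) : ¬ InSeg (Tr j) (pt (s, j)) := by
  refine not_inSeg' _ _ (fun z hz z' hz' hd hzz => ?_)
  have hd' : dist z' (pt (s, j)) < 1 / 2 := by
    have h1 : z' = pt (s, j) + pt (s, j) - z := by rw [← hzz]; abel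
    rw [h1, dist_eq_norm]
    have h2 : pt (s, j) + pt (s, j) - z - pt (s, j) = -(z - pt (s, j)) := by abel
    rw [h2, norm_neg, ← dist_eq_norm]
    exact hd
  obtain ⟨x, b, rfl, hx⟩ := near_inner j hj hj' s z hz hd
  obtain ⟨x', b', rfl, hx'⟩ := near_inner j hj hj' s z' hz' hd'
  simp only [pt, hj, emb_add] at hzz ⊢
  obtain ⟨e1, e2⟩ := emb_inj _ _ _ _ hzz
  have hs : sg s ^ 2 = 1 := by cases s <;> simp [sg]
  have hxx : x' = -x := by
    have h3 : sg s * (x + x') = 0 := by linarith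
    have h4 : sg s * (sg s * (x + x')) = 0 := by rw [h3, mul_zero]
    have h5 : sg s * (sg s * (x + x')) = x + x' := by
      rw [← mul_assoc, ← sq, hs, one_mul]
    linarith
  have hbb : b' = -b := by linarith
  subst hxx
  subst hbb
  have hfin : x = 0 ∧ b = 0 := by
    rw [abs_neg] at hx'
    rcases hx with ⟨h1, h2⟩ | h1
    · subst h1
      rcases hx' with ⟨_, h3⟩ | h3
      · exact ⟨by linarith, rfl⟩
      · rw [abs_zero] at h3
        exact ⟨by linarith, rfl⟩
    · rcases hx' with ⟨h3, h4⟩ | h3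
      · have hb : b = 0 := by linarith
        subst hb
        rw [abs_zero] at h1
        exact ⟨by linarith, rfl⟩
      · have hb : |b| = 0 := by linarith
        have hb' := abs_eq_zero.mp hb
        rw [hb] at h1
        exact ⟨by linarith, hb'⟩
  rw [hfin.1, hfin.2]
  congr 1 <;> ring

theorem a1 : ax 1 = 1 / 2 := by simp [ax]
theorem a3 : ax 3 = 1 / 2 := by simp [ax]
theorem b1 : ay 1 = 1 / 2 := by simp [ay]
theorem b3 : ay 3 = -1 / 2 := by simp [ay]

/-- No terminal is interior to a segment of either tree. -/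
theorem not_inSeg_Tr (j : Fin 5) (hj : j = 1 ∨ j = 3) (p : Bool × Fin 5) :
    ¬ InSeg (Tr j) (pt p) := by
  obtain ⟨s, i⟩ := p
  rcases hj with rfl | rfl
  · fin_cases i
    · exact outer 1 a1 s 0 (by simp [ax]) (by simp [ay])
    · exact inner_terminal' 1 a1 (Or.inl b1) s
    · exact outer 1 a1 s 2 (by simp [ax]) (by simp [ay])
    · exact inner_terminal 3 1 a1 a3 (by rw [b1, b3]; ring) (Or.inr b3) s
    · exact outer 1 a1 s 4 (by simp [ax]) (by simp [ay])
  · fin_cases i
    · exact outer 3 a3 s 0 (by simp [ax]) (by simp [ay])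
    · exact inner_terminal 1 3 a3 a1 (by rw [b1, b3]; ring) (Or.inl b1) s
    · exact outer 3 a3 s 2 (by simp [ax]) (by simp [ay])
    · exact inner_terminal' 3 a3 (Or.inr b3) s
    · exact outer 3 a3 s 4 (by simp [ax]) (by simp [ay])

theorem Tr_ne : Tr 1 ≠ Tr 3 := by
  intro h
  have hmem : emb 5 (1 / 2) ∈ Tr 1 := by
    refine Or.inl (Or.inr ?_)
    refine ⟨1 / 2, 1 / 2, by norm_num, by norm_num, by norm_num, ?_⟩
    ext i
    fin_cases i
    · simp [emb, pt, sg, off, ax]; norm_num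
    · simp [emb, pt, ay]; ring
  rw [h] at hmem
  rcases mem_Tr 3 a3 _ hmem with ⟨s, x, b, hz, hx0, hx1, _, _⟩ | ⟨x, hz, _, _⟩
  · have := (emb_inj _ _ _ _ hz).1
    cases s <;> simp [sg, off] at this <;> linarith
  · have := (emb_inj _ _ _ _ hz).2
    simp [ay] at this
    norm_num at this

end Pool.Agent.H80
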